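import Pool.Agent.Lib.MP_bc213e_ag.OW.D.Res
import Pool.Agent.Lib.MP_bc213e_ag.Hyp.Prime
import Pool.Agent.Lib.MP_bc213e_ag.Hyp.CD

/-! The normalisation and the conductor. -/

namespace Pool.Agent.Lib.MP_bc213e_ag.OW

open Pool.Agent.Lib.MP_bc213e_ag.Hyp WithZero Module
open scoped IntermediateField

variable {F κ : Type} [Field F] [Algebra ℂ F] [Fintype κ]

/-- The normalisation is finite. `R = Algebra.adjoin ℂ (range τ)` is a polynomial ring
(`AlgebraicIndependent.aevalEquiv`) with fraction field `IntermediateField.adjoin ℂ (range τ)`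
(`open scoped IntermediateField.algebraAdjoinAdjoin`); `B = (integralClosure R F).restrictScalars ℂ`
(`IsIntegralClosure.finite`, `integralClosure.isFractionRing_of_finite_extension`,
`integralClosure.isIntegrallyClosedOfFiniteExtension`). -/
theorem exists_norm {n : ℕ} (τ : Fin n → F) (hτ : AlgebraicIndependent ℂ τ)
    [FiniteDimensional (IntermediateField.adjoin ℂ (Set.range τ)) F] :
    ∃ (B : Subalgebra ℂ F) (T : Finset F), IsNoetherianRing B ∧ IsFractionRing B F ∧
      IsIntegrallyClosed B ∧ (∀ z, z ∈ B ↔ IsIntegral (Algebra.adjoin ℂ (Set.range τ)) z) ∧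
      ∀ z ∈ B, z ∈ Submodule.span (Algebra.adjoin ℂ (Set.range τ)) (T : Set F) := by
  open scoped IntermediateField.algebraAdjoinAdjoin in
  have e := hτ.aevalEquiv
  have : IsNoetherianRing (Algebra.adjoin ℂ (Set.range τ)) :=
    isNoetherianRing_of_ringEquiv _ e.toRingEquiv
  have : IsIntegrallyClosed (Algebra.adjoin ℂ (Set.range τ)) :=
    IsIntegrallyClosed.of_equiv e.toRingEquiv
  have : CharZero (IntermediateField.adjoin ℂ (Set.range τ)) :=
    algebraRat.charZero _
  have hf : Module.Finite (Algebra.adjoin ℂ (Set.range τ))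
      (integralClosure (Algebra.adjoin ℂ (Set.range τ)) F) :=
    IsIntegralClosure.finite _ (IntermediateField.adjoin ℂ (Set.range τ)) F _
  have h1 : IsNoetherianRing (integralClosure (Algebra.adjoin ℂ (Set.range τ)) F) :=
    IsIntegralClosure.isNoetherianRing (Algebra.adjoin ℂ (Set.range τ))
      (IntermediateField.adjoin ℂ (Set.range τ)) F _
  have h2 := integralClosure.isFractionRing_of_finite_extension
    (A := Algebra.adjoin ℂ (Set.range τ)) (IntermediateField.adjoin ℂ (Set.range τ)) F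
  have h3 : IsIntegrallyClosed (integralClosure (Algebra.adjoin ℂ (Set.range τ)) F) :=
    integralClosure.isIntegrallyClosedOfFiniteExtension (IntermediateField.adjoin ℂ (Set.range τ))
  obtain ⟨T, hT⟩ := (Module.Finite.iff_fg (N := Subalgebra.toSubmodule
    (integralClosure (Algebra.adjoin ℂ (Set.range τ)) F))).1 hf
  refine ⟨(integralClosure (Algebra.adjoin ℂ (Set.range τ)) F).restrictScalars ℂ, T, h1, h2, h3,
    fun _ => Iff.rfl, fun z hz => ?_⟩
  rw [hT]
  exact hz

/-- `![z]` is a transcendence basis (`AlgebraicIndependent.isTranscendenceBasis_of_lift_trdeg_le`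
or a variant), `fd_of_gen`. -/
theorem crv_of (y : κ → F) (gen : IntermediateField.adjoin ℂ (Set.range y) = ⊤)
    (tr : Algebra.trdeg ℂ F = 1) : Crv F := by
  intro z hz
  have h : IsTranscendenceBasis ℂ ![z] :=
    (algebraicIndependent_unique_type_iff.2 hz).isTranscendenceBasis_of_trdeg_le_of_finite
      (by simp [tr])
  have h2 := fd_of_gen y gen _ h
  rwa [Matrix.range_cons, Matrix.range_empty, Set.union_empty] at h2

theorem exists_transc (y : κ → F) (gen : IntermediateField.adjoin ℂ (Set.range y) = ⊤)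
    (tr : Algebra.trdeg ℂ F = 1) : ∃ j, Transcendental ℂ (y j) := by
  by_contra h
  have h1 : Algebra.IsAlgebraic ℂ (IntermediateField.adjoin ℂ (Set.range y)) :=
    IntermediateField.isAlgebraic_adjoin <| by
      rintro _ ⟨j, rfl⟩
      by_contra h2
      exact h ⟨j, fun h3 => h2 h3.isIntegral⟩
  rw [gen] at h1
  have h2 : Algebra.IsAlgebraic ℂ F := IntermediateField.topEquiv.isAlgebraic
  rw [trdeg_eq_zero] at tr
  exact zero_ne_one tr

/-- `exists_norm` for `τ = ![z⁻¹]`. Without poles `z ∈ B` (`hartogs`), so `z = p(z⁻¹)` (`kl_poly`)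
and `X 0 * p = 1`; look at the constant coefficient. -/
theorem exists_pole (hF : Crv F) {z : F} (hz : Transcendental ℂ z) :
    ∃ w : ZVal F, IsPlace w ∧ 1 < w z := by
  by_contra h
  have hz' : Transcendental ℂ z⁻¹ := fun h => hz (by simpa using h.inv)
  have h0 : z ≠ 0 := fun h => hz (h ▸ isAlgebraic_zero)
  have hτ : AlgebraicIndependent ℂ ![z⁻¹] := algebraicIndependent_iff_transcendental.2 hz'
  have hr : Set.range ![z⁻¹] = {z⁻¹} := by simp
  have : FiniteDimensional (IntermediateField.adjoin ℂ (Set.range ![z⁻¹])) F := hr ▸ hF _ hz'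
  obtain ⟨B, T, _, _, _, hB, -⟩ := exists_norm _ hτ
  have h1 : z ∈ B := hartogs fun w hw => not_lt.1 fun h' =>
    h ⟨w, ⟨hw.1, fun c => hw.2.1 _ (B.algebraMap_mem c)⟩, h'⟩
  have h2 : z⁻¹⁻¹ ∈ IntermediateField.adjoin ℂ (Set.range ![z⁻¹]) :=
    inv_mem (IntermediateField.subset_adjoin _ _ ⟨0, rfl⟩)
  rw [inv_inv] at h2
  obtain ⟨p, hp⟩ := kl_poly _ hτ h2 ((hB z).1 h1)
  have h3 : (MvPolynomial.X 0 * p : MvPolynomial (Fin 1) ℂ) = 1 := hτ (by
    rw [map_mul, MvPolynomial.aeval_X, hp, map_one]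
    exact inv_mul_cancel₀ h0)
  simpa using congrArg MvPolynomial.constantCoeff h3

/-- `nn` and `isIntegral_of_Bd` give a transcendence basis `τ` in the span of `y` with `y j ∈ B`
(`fd_of_gen`, `exists_norm`); `hartogs` for `B`; `c` is a common denominator of `T`
(`IntermediateField.mem_adjoin_iff_div`). -/
theorem conductor (y : κ → F) (gen : IntermediateField.adjoin ℂ (Set.range y) = ⊤) {n : ℕ}
    (tr : Algebra.trdeg ℂ F = n) : ∃ c : F, c ≠ 0 ∧ ∀ z : F,
      (∀ w : ZVal F, IsPlace w → (∀ j, w (y j) ≤ 1) → w z ≤ 1) →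
        c * z ∈ Algebra.adjoin ℂ (Set.range y) := by
  classical
  obtain ⟨τ, h1, h2, h3⟩ := nn y gen tr
  have := fd_of_gen y gen τ h2
  obtain ⟨B, T, _, _, _, hB, hT⟩ := exists_norm τ h2.1
  have hle : Algebra.adjoin ℂ (Set.range τ) ≤ Algebra.adjoin ℂ (Set.range y) :=
    Algebra.adjoin_le (by rintro _ ⟨l, rfl⟩; exact Algebra.span_le_adjoin ℂ _ (h1 l))
  have hd : ∀ t : F, ∃ s ∈ Algebra.adjoin ℂ (Set.range y), s ≠ 0 ∧
      s * t ∈ Algebra.adjoin ℂ (Set.range y) := fun t => by
    obtain ⟨r, hr, s, hs, e⟩ := IntermediateField.mem_adjoin_iff_div.1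
      (gen ▸ IntermediateField.mem_top : t ∈ IntermediateField.adjoin ℂ (Set.range y))
    by_cases h0 : s = 0
    · exact ⟨1, one_mem _, one_ne_zero, by rw [e, h0, div_zero, mul_zero]; exact zero_mem _⟩
    · exact ⟨s, hs, h0, by rw [e, mul_div_cancel₀ _ h0]; exact hr⟩
  choose s hs hs0 hst using hd
  refine ⟨∏ t ∈ T, s t, Finset.prod_ne_zero_iff.2 fun t _ => hs0 t, fun z hz => ?_⟩
  have hzB : z ∈ B := hartogs fun w hw =>
    hz w ⟨hw.1, fun c => hw.2.1 _ (B.algebraMap_mem c)⟩ fun j =>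
      hw.2.1 _ ((hB _).2 (isIntegral_of_Bd τ (h3 j)))
  refine Submodule.span_induction (p := fun z _ => (∏ t ∈ T, s t) * z ∈
    Algebra.adjoin ℂ (Set.range y)) (fun t ht => ?_) ?_ (fun a b _ _ ha hb => ?_)
    (fun a b _ hb => ?_) (hT z hzB)
  · rw [← Finset.prod_erase_mul _ _ ht, mul_assoc]
    exact mul_mem (prod_mem fun u _ => hs u) (hst t)
  · rw [mul_zero]
    exact zero_mem _
  · rw [mul_add]
    exact add_mem ha hb
  · change _ * ((a : F) * b) ∈ _
    rw [mul_left_comm]
    exact mul_mem (hle a.2) hb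

end Pool.Agent.Lib.MP_bc213e_ag.OW
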