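import Pool.Agent.Lib.MP_bc213e_ag.OW.D.Rie
import Pool.Agent.Lib.MP_bc213e_ag.OW.D.Cond
import Pool.Agent.Lib.MP_bc213e_ag.KBB.Sheaf

/-! Curves: a line bundle of degree `≥ 0` has sections after a bounded twist. -/

namespace Pool.Agent.Lib.MP_bc213e_ag.OW

open Pool.Agent.Lib.MP_bc213e_ag.Hyp Pool.Agent.Lib.MP_bc213e_ag.KBB WithZero

variable {F ι : Type} [Field F] [Algebra ℂ F]

theorem dmain_gen (x : ι → Fˣ) (i₀ : ι) (one : x i₀ = 1)
    (gen : IntermediateField.adjoin ℂ (Set.range fun i => (x i : F)) = ⊤) (i : ι) :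
    IntermediateField.adjoin ℂ (Set.range fun j => (x j : F) / x i) = ⊤ := by
  rw [eq_top_iff, ← gen, IntermediateField.adjoin_le_iff]
  rintro _ ⟨j, rfl⟩
  have h : ∀ l, (x l : F) / x i ∈ IntermediateField.adjoin ℂ (Set.range fun j => (x j : F) / x i) :=
    fun l => IntermediateField.subset_adjoin _ _ ⟨l, rfl⟩
  have h1 := div_mem (h j) (h i₀)
  rwa [div_div_div_cancel_right₀ (x i).ne_zero, one, Units.val_one, div_one] at h1

theorem dmain_g {x g : ι → Fˣ} (hc : Cart x g) {v : ZVal F} (hv : Triv v) {i j : ι}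
    (hi : ∀ l, v (x l) ≤ v (x i)) (hj : ∀ l, v (x l) ≤ v (x j)) : v (g i) ≤ v (g j) := by
  obtain ⟨e, he⟩ := hc i j
  have h := (chart_le_iff x j hv).2 hj _ he
  rwa [map_mul, map_pow, map_div₀, map_div₀, le_antisymm (hj i) (hi j),
    div_self (Basic_pos v (x j)).ne', one_pow, mul_one, div_le_one₀ (Basic_pos v (g j))] at h

theorem curve_eff {F ι : Type} [Field F] [Algebra ℂ F] [Fintype ι] (x g : ι → Fˣ) (i₀ : ι)
    (one : x i₀ = 1) (gen : IntermediateField.adjoin ℂ (Set.range fun i => (x i : F)) = ⊤)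
    (tr : Algebra.trdeg ℂ F = 1) (hc : Cart x g) (hd : DegNN x g) :
    ∃ a : ℕ, ∀ t : ℕ, ∃ s : F, s ≠ 0 ∧ Sec x g t a s := by
  classical
  have : Nonempty ι := ⟨i₀⟩
  have hF := crv_of _ gen tr
  obtain ⟨j, hj⟩ := exists_transc _ gen tr
  obtain ⟨w₀, hw₀, hp⟩ := exists_pole hF hj
  obtain ⟨C, hC⟩ := riemann hF hj
  choose c hcm using fun v : ZVal F => Finite.exists_max fun i => v (x i : F)
  choose e he0 he using fun i => conductor (n := 1) _ (dmain_gen x i₀ one gen i) (tr.trans (by simp))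
  have hfin : {w : ZVal F | IsPlace w ∧ ∃ i, w (g i) ≠ 1 ∨ w (x i) ≠ 1 ∨ w (e i) ≠ 1}.Finite := by
    refine (Set.finite_iUnion fun i => (fin_supp hF (g i).ne_zero).union
      ((fin_supp hF (x i).ne_zero).union (fin_supp hF (he0 i)))).subset ?_
    rintro w ⟨hw, i, h⟩
    exact Set.mem_iUnion.2 ⟨i, h.imp (fun h => ⟨hw, h⟩) (Or.imp (fun h => ⟨hw, h⟩) fun h => ⟨hw, h⟩)⟩
  obtain ⟨Z, hZ⟩ : ∃ Z : Finset (ZVal F), ∀ w, w ∈ Z ↔
      IsPlace w ∧ ∃ i, w (g i) ≠ 1 ∨ w (x i) ≠ 1 ∨ w (e i) ≠ 1 :=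
    ⟨hfin.toFinset, fun w => hfin.mem_toFinset⟩
  obtain ⟨E, hE⟩ : ∃ E : ZVal F → ℕ, ∀ w, E w = ∑ i, (-log (w (e i))).toNat := ⟨_, fun _ => rfl⟩
  have h1 : 0 ≤ ∑ w ∈ Z, log (w (g (c w) : F)) := by
    have h := hd c fun v _ => hcm v
    rwa [show (∑ᶠ (v : ZVal F) (_ : IsPlace v), log (v (g (c v) : F))) =
      ∑ᶠ v ∈ {v : ZVal F | IsPlace v}, log (v (g (c v) : F)) from rfl,
      finsum_mem_eq_sum_of_inter_support_eq (t := Z)] at h
    ext w
    refine ⟨fun hw => ⟨(hZ w).2 ⟨hw.1, c w, Or.inl fun h => hw.2 ?_⟩, hw.2⟩,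
      fun hw => ⟨((hZ w).1 hw.1).1, hw.2⟩⟩
    simp only [h, log_one]
  have h2 : ∀ (w : ZVal F) i, log (w (x i : F)) ≤ log (w (x (c w) : F)) := fun w i =>
    (log_le_log (Basic_pos w _).ne' (Basic_pos w _).ne').2 (hcm w i)
  have h3 : 1 ≤ ∑ w ∈ Z, log (w (x (c w) : F)) := by
    refine le_trans ?_ (Finset.single_le_sum (fun w _ => ?_)
      ((hZ w₀).2 ⟨hw₀, j, Or.inr (Or.inl hp.ne')⟩))
    · refine le_trans ?_ (h2 w₀ j)
      have := (log_lt_log one_ne_zero (Basic_pos w₀ (x j)).ne').2 hp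
      rw [log_one] at this
      omega
    · simpa [one] using h2 w i₀
  refine ⟨C + ∑ w ∈ Z, E w, fun t => ?_⟩
  obtain ⟨s, hs0, hs⟩ := hC (fun w => t * log (w (g (c w) : F)) +
      ((C + ∑ w ∈ Z, E w : ℕ) : ℤ) * log (w (x (c w) : F)) - E w) Z (fun w hw => ((hZ w).1 hw).1)
    (fun w hw h => by
      by_contra hn
      rw [hZ] at hn
      push Not at hn
      exact h (by simp [hE, fun i => (hn hw i).1, fun i => (hn hw i).2.1, fun i => (hn hw i).2.2]))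
    (by
      rw [Finset.sum_sub_distrib, Finset.sum_add_distrib, ← Finset.mul_sum, ← Finset.mul_sum]
      have h4 := mul_nonneg (Int.natCast_nonneg t) h1
      have h5 := le_mul_of_one_le_right (Int.natCast_nonneg (C + ∑ w ∈ Z, E w)) h3
      push_cast at h5 ⊢
      linarith)
  refine ⟨s, hs0, fun i => ?_⟩
  generalize C + ∑ w ∈ Z, E w = a at hs
  have h6 := he i (s / ((g i : F) ^ (t : ℤ) * (x i : F) ^ a) / e i) fun w hw hi => by
    have h7 : ∀ l, w (x l) ≤ w (x i) := fun l => by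
      have := hi l
      rwa [map_div₀, div_le_one₀ (Basic_pos w _)] at this
    have h8 : w (e i) ≠ 0 := (map_ne_zero w).2 (he0 i)
    have h9 : (-log (w (e i))).toNat ≤ E w := by
      rw [hE]
      exact Finset.single_le_sum (f := fun i => (-log (w (e i))).toNat) (fun _ _ => Nat.zero_le _)
        (Finset.mem_univ i)
    rw [div_div, map_div₀, map_mul, map_mul, map_zpow₀, map_pow,
      le_antisymm (dmain_g hc hw.2 h7 (hcm w)) (dmain_g hc hw.2 (hcm w) h7),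
      le_antisymm (hcm w i) (h7 _), ← exp_log h8, ← exp_log (Basic_pos w (g (c w))).ne',
      ← exp_log (Basic_pos w (x (c w))).ne', ← exp_zsmul, ← exp_nsmul, ← exp_add, ← exp_add,
      div_le_one₀ (zero_lt_iff.2 exp_ne_zero)]
    refine (hs w hw).trans (exp_le_exp.2 ?_)
    rw [smul_eq_mul, nsmul_eq_mul]
    omega
  rwa [mul_div_cancel₀ _ (he0 i)] at h6

end Pool.Agent.Lib.MP_bc213e_ag.OW
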