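import Pool.Agent.Lib.MP_bc213e_ag.OW.D.Res
import Pool.Agent.Lib.MP_751085_ag.Q1

/-! The degree of the divisor of zeros is at most the degree of the field extension. -/

namespace Pool.Agent.Lib.MP_bc213e_ag.OW

open Pool.Agent.Lib.MP_bc213e_ag.Hyp WithZero Polynomial Module
open scoped IntermediateField

variable {F : Type} [Field F] [Algebra ℂ F]

theorem pole1_pol (y : F) {p : ℂ[X]} (hp : p ≠ 0) :
    ∃ m : ℕ, ∀ w : ZVal F, Triv w → w y < 1 → w (aeval y p) = w y ^ m := by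
  obtain ⟨r, hr, hn⟩ := exists_eq_pow_rootMultiplicity_mul_and_not_dvd p hp 0
  rw [map_zero, sub_zero] at hr hn
  refine ⟨p.rootMultiplicity 0, fun w hw hy => ?_⟩
  have h1 : w (aeval y r.divX) ≤ 1 :=
    triv_adjoin hw (s := {y}) (fun a ha => ha ▸ hy.le) (aeval_mem_adjoin_singleton ℂ y)
  have h2 : w (algebraMap ℂ F (r.coeff 0)) = 1 := triv_one hw fun e => hn (X_dvd_iff.2 e)
  have h3 : w (aeval y r) = 1 := by
    rw [← divX_mul_X_add r, map_add, map_mul, aeval_X, aeval_C,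
      Valuation.map_add_eq_of_lt_right, h2]
    rw [h2, map_mul]
    exact (mul_le_of_le_one_left' h1).trans_lt hy
  conv_lhs => rw [hr, map_mul, map_mul, h3, mul_one, map_pow, map_pow, aeval_X]

theorem pole1_le {a : WithZero (Multiplicative ℤ)} (h : a < 1) : a ≤ exp (-1) := by
  rcases eq_or_ne a 0 with rfl | h0
  · exact zero_le
  · rw [← exp_log h0, ← exp_zero, exp_lt_exp] at h
    rw [← exp_log h0, exp_le_exp]
    omega

theorem pole1_eq {u y : F} (h1 : y ∈ ℂ⟮u⟯) (h2 : u ∈ ℂ⟮y⟯) [FiniteDimensional ℂ⟮u⟯ F] :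
    FiniteDimensional ℂ⟮y⟯ F ∧ finrank ℂ⟮y⟯ F = finrank ℂ⟮u⟯ F := by
  have h : ℂ⟮y⟯ = ℂ⟮u⟯ := le_antisymm (IntermediateField.adjoin_simple_le_iff.2 h1)
    (IntermediateField.adjoin_simple_le_iff.2 h2)
  rw [h]
  exact ⟨inferInstance, rfl⟩

/-- `c = p(y) / q(y)` (`IntermediateField.mem_adjoin_simple_iff`); `p = X ^ m * r` with
`r(0) ≠ 0` (`exists_eq_pow_rootMultiplicity_mul_and_not_dvd`), and `w (r(y)) = 1` because
`r = divX r * X + C (r.coeff 0)`. -/
theorem rat_val {y c : F} (hc : c ∈ ℂ⟮y⟯) (h0 : c ≠ 0) :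
    ∃ m : ℤ, ∀ w : ZVal F, Triv w → w y < 1 → y ≠ 0 → w c = w y ^ m := by
  obtain ⟨p, q, rfl⟩ := (IntermediateField.mem_adjoin_simple_iff ℂ c).1 hc
  obtain ⟨a, ha⟩ := pole1_pol y (p := p) (by rintro rfl; simp at h0)
  obtain ⟨b, hb⟩ := pole1_pol y (p := q) (by rintro rfl; simp at h0)
  refine ⟨a - b, fun w hw hy hy0 => ?_⟩
  rw [map_div₀, ha w hw hy, hb w hw hy, zpow_sub₀ (w.ne_zero_iff.2 hy0), zpow_natCast,
    zpow_natCast]

/-- Both send the same elements to `exp (-1)`: the largest value below `1`. -/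
theorem pl_inj {w w' : ZVal F} (hw : IsPlace w) (hw' : IsPlace w')
    (h : w.valuationSubring = w'.valuationSubring) : w = w' := by
  have he : w.IsEquiv w' := (Valuation.isEquiv_iff_valuationSubring w w').2 h
  obtain ⟨π, hπ⟩ := hw.1
  obtain ⟨π', hπ'⟩ := hw'.1
  have h1 : (exp (-1) : WithZero (Multiplicative ℤ)) < 1 := by
    rw [← exp_zero, exp_lt_exp]
    omega
  have h2 : w' π = exp (-1) := le_antisymm (pole1_le (he.lt_one_iff_lt_one.1 (hπ ▸ h1)))
    (hπ' ▸ (he π' π).1 (hπ ▸ pole1_le (he.lt_one_iff_lt_one.2 (hπ' ▸ h1))))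
  ext z
  rcases eq_or_ne z 0 with rfl | hz
  · rw [map_zero, map_zero]
  have h3 : w (z * π ^ log (w z)) = 1 := by
    rw [map_mul, map_zpow₀, hπ, ← exp_zsmul]
    nth_rewrite 1 [← exp_log (w.ne_zero_iff.2 hz)]
    rw [← exp_add, smul_neg, smul_eq_mul, mul_one, add_neg_cancel, exp_zero]
  have h4 := he.eq_one_iff_eq_one.1 h3
  rw [map_mul, map_zpow₀, h2, ← hπ, ← map_zpow₀] at h4
  rw [map_mul] at h3
  exact mul_right_cancel₀ (right_ne_zero_of_mul_eq_one h3) (h3.trans h4.symm)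

/-- Let `Z'` be the set of `w ∈ Z` with `w y < 1`, `w y = exp (-e w)`. `HZ.weak_approx` gives
`z w a`, `a < e w`, with `w (z w a) = exp (-a)` and `w' (z w a) ≤ exp (-e w')` for `w' ≠ w`. They
are independent over `ℂ⟮y⟯`: in a relation write the non-zero coefficients by `rat_val`, take the
index `(w, a)` with the least `(m, a)` in the lexicographic order (`Finset.exists_min_image`,
`toLex`); its term has the largest value at `w` (`Valuation.map_sum_eq_of_lt`). -/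
theorem zero_deg {y : F} (h0 : y ≠ 0) [FiniteDimensional ℂ⟮y⟯ F] (Z : Finset (ZVal F))
    (hZ : ∀ w ∈ Z, IsPlace w) : ∑ w ∈ Z, (-log (w y)).toNat ≤ finrank ℂ⟮y⟯ F := by
  classical
  obtain ⟨e, he⟩ : ∃ e : ZVal F → ℕ, ∀ w, e w = (-log (w y)).toNat := ⟨_, fun _ => rfl⟩
  simp only [← he]
  have hs := fun j : Z => (hZ j.1 j.2).surj
  choose p hp using fun (j : Z) (n : ℕ) => hs j (exp (-(n : ℤ)))
  have hz : ∀ i : Z.sigma fun w => Finset.range (e w), ∃ z : F, i.1.1 z = exp (-(i.1.2 : ℤ)) ∧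
      ∀ w ∈ Z, w ≠ i.1.1 → w z ≤ exp (-(e w : ℤ)) := by
    rintro ⟨⟨w, a⟩, hi⟩
    obtain ⟨hw, ha⟩ := Finset.mem_sigma.1 hi
    obtain ⟨z, hz⟩ := HZ.weak_approx (fun j : Z => j.1) hs
      (fun j j' h => Subtype.ext (pl_inj (hZ _ j.2) (hZ _ j'.2) h))
      (fun j => if j.1 = w then p j a else 0) (fun j => p j (e j)) fun j h =>
        exp_ne_zero ((hp j (e j)).symm.trans (by rw [h, map_zero]))
    refine ⟨z, ?_, fun w' hw' hne => ?_⟩
    · have h := hz ⟨w, hw⟩
      rw [if_pos rfl, hp] at h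
      refine (Valuation.map_eq_of_sub_lt _ (h.trans_lt ?_)).trans (hp ⟨w, hw⟩ a)
      have := Finset.mem_range.1 ha
      exact (exp_lt_exp.2 (by dsimp only at this ⊢; omega)).trans_eq (hp ⟨w, hw⟩ a).symm
    · have h := hz ⟨w', hw'⟩
      rwa [if_neg hne, sub_zero, hp] at h
  choose z z1 z2 using hz
  have hli : LinearIndependent ℂ⟮y⟯ z := by
    refine Fintype.linearIndependent_iff.2 fun g hg => by_contra fun hne => ?_
    obtain ⟨i₁, h₁⟩ := not_forall.1 hne
    choose! m hm using fun i (h : g i ≠ 0) => rat_val (g i).2 fun h' => h (Subtype.ext h')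
    obtain ⟨i, hi, hmin⟩ := (Finset.univ.filter fun i => g i ≠ 0).exists_min_image
      (fun i => toLex (m i, i.1.2)) ⟨i₁, by simpa using h₁⟩
    obtain ⟨hw, ha⟩ := Finset.mem_sigma.1 i.2
    rw [Finset.mem_range] at ha
    have hy : i.1.1 y = exp (-(e i.1.1 : ℤ)) := by
      have := he i.1.1
      rw [← exp_log ((map_ne_zero i.1.1).2 h0)]
      congr 1
      omega
    have hv : ∀ j, g j ≠ 0 → i.1.1 (g j • z j) = exp (-(m j * e i.1.1)) * i.1.1 (z j) :=
      fun j hj => by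
        rw [IntermediateField.smul_def, smul_eq_mul, map_mul, hm j hj _ (hZ _ hw).2
          (hy.trans_lt (exp_lt_exp.2 (by omega))) h0, hy, ← exp_zsmul, smul_eq_mul, mul_neg]
    have hi' := hv i (Finset.mem_filter.1 hi).2
    rw [z1, ← exp_add] at hi'
    have h := Valuation.map_sum_eq_of_lt i.1.1 (f := fun j => g j • z j) (Finset.mem_univ i)
      fun j hj => ?_
    · rw [hg, map_zero, hi'] at h
      exact exp_ne_zero h.symm
    rw [hi']
    by_cases hj0 : g j = 0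
    · rw [hj0, zero_smul, map_zero]
      exact exp_pos
    have h1 := Prod.Lex.toLex_le_toLex.1 (hmin j (by simpa using hj0))
    have h2 : m i * e i.1.1 ≤ m j * e i.1.1 :=
      mul_le_mul_of_nonneg_right (h1.elim le_of_lt fun h => h.1.le) (Nat.cast_nonneg _)
    rw [hv j hj0]
    by_cases hwj : i.1.1 = j.1.1
    · rw [hwj, z1, ← hwj, ← exp_add, exp_lt_exp]
      rcases h1 with h1 | ⟨h1, h3⟩
      · have h3 : (m i + 1) * e i.1.1 ≤ m j * e i.1.1 :=
          mul_le_mul_of_nonneg_right h1 (Nat.cast_nonneg _)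
        rw [add_one_mul] at h3
        omega
      · have h4 : i.1.2 ≠ j.1.2 := fun h4 => (Finset.mem_sdiff.1 hj).2
          (Finset.mem_singleton.2 (Subtype.ext (Sigma.ext hwj (heq_of_eq h4))).symm)
        dsimp only at h3
        omega
    · refine (mul_le_mul_right (z2 j _ hw hwj) _).trans_lt ?_
      rw [← exp_add, exp_lt_exp]
      omega
  simpa using hli.fintype_card_le_finrank

/-- `ℂ⟮u⁻¹⟯ = ℂ⟮u⟯`. -/
theorem pole_deg {u : F} (h0 : u ≠ 0) [FiniteDimensional ℂ⟮u⟯ F] (Z : Finset (ZVal F))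
    (hZ : ∀ w ∈ Z, IsPlace w) : ∑ w ∈ Z, (log (w u)).toNat ≤ finrank ℂ⟮u⟯ F := by
  obtain ⟨_, h⟩ := pole1_eq (u := u) (y := u⁻¹)
    (inv_mem (IntermediateField.mem_adjoin_simple_self ℂ u))
    (inv_mem_iff.1 (IntermediateField.mem_adjoin_simple_self ℂ u⁻¹))
  have h1 := zero_deg (inv_ne_zero h0) Z hZ
  simpa only [h, map_inv₀, log_inv, neg_neg] using h1

/-- `ℂ⟮u - c⟯ = ℂ⟮u⟯`. -/
theorem zero_deg_sub {u : F} (c : ℂ) (h0 : u - algebraMap ℂ F c ≠ 0) [FiniteDimensional ℂ⟮u⟯ F]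
    (Z : Finset (ZVal F)) (hZ : ∀ w ∈ Z, IsPlace w) :
    ∑ w ∈ Z, (-log (w (u - algebraMap ℂ F c))).toNat ≤ finrank ℂ⟮u⟯ F := by
  obtain ⟨_, h⟩ := pole1_eq (u := u) (y := u - algebraMap ℂ F c)
    (sub_mem (IntermediateField.mem_adjoin_simple_self ℂ u) (IntermediateField.algebraMap_mem _ c))
    (by
      have := add_mem (IntermediateField.mem_adjoin_simple_self ℂ (u - algebraMap ℂ F c))
        (IntermediateField.algebraMap_mem _ c)
      rwa [sub_add_cancel] at this)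
  exact h ▸ zero_deg h0 Z hZ

/-- `transc_of_ne`; an infinite set contains a finite set with `2 n + 1` elements
(`Set.Infinite.exists_subset_card_eq`), each a zero or a pole. -/
theorem fin_supp (hF : Crv F) {z : F} (h0 : z ≠ 0) : {w : ZVal F | IsPlace w ∧ w z ≠ 1}.Finite := by
  by_contra hi
  obtain ⟨w₀, hw₀⟩ := Set.Infinite.nonempty hi
  have := hF z (transc_of_ne hw₀.1.2 h0 hw₀.2)
  obtain ⟨T, hT, hc⟩ := Set.Infinite.exists_subset_card_eq hi (2 * finrank ℂ⟮z⟯ F + 1)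
  have h1 := zero_deg h0 T fun w hw => (hT hw).1
  have h2 := pole_deg h0 T fun w hw => (hT hw).1
  have h3 : ∑ w ∈ T, 1 ≤ ∑ w ∈ T, ((-log (w z)).toNat + (log (w z)).toNat) :=
    Finset.sum_le_sum fun w hw => by
      have : log (w z) ≠ 0 := fun e => (hT hw).2 (by
        rw [← exp_log (w.ne_zero_iff.2 h0), e, exp_zero])
      omega
  rw [Finset.sum_add_distrib, Finset.sum_const, smul_eq_mul, mul_one, hc] at h3
  omega

end Pool.Agent.Lib.MP_bc213e_ag.OW
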