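import Pool.Agent.Lib.MP_bc213e_ag.OW.IDefs

/-! Places of a function field in one variable: residues and the drop of dimension. -/

namespace Pool.Agent.Lib.MP_bc213e_ag.OW

open Pool.Agent.Lib.MP_bc213e_ag.Hyp WithZero Polynomial Module
open scoped IntermediateField

variable {F : Type} [Field F] [Algebra ℂ F]

/-- `F` is finite over `ℂ(z)` for every transcendental `z`. -/
def Crv (F : Type) [Field F] [Algebra ℂ F] : Prop :=
  ∀ z : F, Transcendental ℂ z → FiniteDimensional ℂ⟮z⟯ F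

variable {w : ZVal F}

theorem triv_one (h : Triv w) {c : ℂ} (hc : c ≠ 0) : w (algebraMap ℂ F c) = 1 := by
  refine (h c).antisymm ?_
  have h1 := mul_le_mul' (le_refl (w (algebraMap ℂ F c))) (h c⁻¹)
  rwa [← map_mul, ← map_mul, mul_inv_cancel₀ hc, map_one, map_one, mul_one] at h1

theorem triv_adjoin (h : Triv w) {s : Set F} (hs : ∀ a ∈ s, w a ≤ 1) {z : F}
    (hz : z ∈ Algebra.adjoin ℂ s) : w z ≤ 1 := by
  induction hz using Algebra.adjoin_induction with
  | mem a ha => exact hs a ha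
  | algebraMap c => exact h c
  | add a b _ _ ha hb => exact w.map_add_le ha hb
  | mul a b _ _ ha hb => exact (map_mul w a b).trans_le (mul_le_one' ha hb)

theorem res1_const {z : F} (hz : IsAlgebraic ℂ z) : ∃ c : ℂ, algebraMap ℂ F c = z :=
  minpoly.degree_eq_one_iff.1
    (IsAlgClosed.degree_eq_one_of_irreducible ℂ (minpoly.irreducible hz.isIntegral))

/-- An algebraic element is a constant (`IsAlgClosed.algebraMap_bijective_of_isIntegral` or
`minpoly.degree_eq_one_iff`). -/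
theorem transc_of_ne (h : Triv w) {z : F} (h0 : z ≠ 0) (h1 : w z ≠ 1) : Transcendental ℂ z := by
  intro hz
  obtain ⟨c, rfl⟩ := res1_const hz
  exact h1 (triv_one h fun e => h0 (by rw [e, map_zero]))

theorem IsPlace.surj (hw : IsPlace w) : Function.Surjective w := by
  obtain ⟨π, hπ⟩ := hw.1
  intro a
  by_cases ha : a = 0
  · exact ⟨0, by rw [ha, map_zero]⟩
  · exact ⟨π ^ (-log a), by
      rw [map_zpow₀, hπ, ← exp_zsmul, smul_eq_mul, mul_neg, mul_one, neg_neg, exp_log ha]⟩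

theorem res1_aeval (h : Triv w) {z : F} (hz : ∀ c : ℂ, w (z - algebraMap ℂ F c) = 1) {p : ℂ[X]}
    (hp : p ≠ 0) : w (aeval z p) = 1 := by
  rw [(IsAlgClosed.splits p).eq_prod_roots, map_mul, map_mul, aeval_C,
    triv_one h (leadingCoeff_ne_zero.2 hp), one_mul, map_multiset_prod, map_multiset_prod]
  refine Multiset.prod_eq_one fun a ha => ?_
  simp only [Multiset.mem_map] at ha
  obtain ⟨_, ⟨_, ⟨c, -, rfl⟩, rfl⟩, rfl⟩ := ha
  rw [map_sub, aeval_X, aeval_C, hz]

/-- If `z` is algebraic it is a constant. Otherwise `π` with `w π = exp (-1)` is algebraic over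
`ℂ⟮z⟯`, hence over `A = Algebra.adjoin ℂ {z}`; `IsAlgebraic.exists_nonzero_eq_adjoin_mul` gives
`π * t = p(z)`, `p ≠ 0`, `w t ≤ 1`. So `w (p(z)) < 1`; split `p` into linear factors. -/
theorem exists_res (hF : Crv F) (hw : IsPlace w) {z : F} (hz : w z ≤ 1) :
    ∃ c : ℂ, w (z - algebraMap ℂ F c) < 1 := by
  by_contra! h
  have h1 : ∀ c : ℂ, w (z - algebraMap ℂ F c) = 1 := fun c =>
    (w.map_sub_le hz (hw.2 c)).antisymm (h c)
  have := hF z fun ha => by
    obtain ⟨c, rfl⟩ := res1_const ha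
    simpa using h1 c
  obtain ⟨π, hπ⟩ := hw.1
  have h2 : w π < 1 := hπ.trans_lt (exp_lt_exp.2 (by norm_num : (-1 : ℤ) < 0))
  obtain ⟨t, ht, r, hr, e⟩ := (IntermediateField.isAlgebraic_adjoin_iff.1
    (Algebra.IsAlgebraic.isAlgebraic (R := ℂ⟮z⟯) π)).exists_nonzero_eq_adjoin_mul
      (mem_nonZeroDivisors_of_ne_zero fun e => exp_ne_zero (by rw [← hπ, e, map_zero]))
  have h3 : w t ≤ 1 := by
    clear e
    induction ht using Algebra.adjoin_induction with
    | mem a ha => exact (Set.mem_singleton_iff.1 ha ▸ h2).le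
    | algebraMap c => exact triv_adjoin hw.2 (fun a ha => Set.mem_singleton_iff.1 ha ▸ hz) c.2
    | add a b _ _ ha hb => exact w.map_add_le ha hb
    | mul a b _ _ ha hb => exact (map_mul w a b).trans_le (mul_le_one' ha hb)
  obtain ⟨p, hp⟩ := (Algebra.adjoin_singleton_eq_range_aeval ℂ z).le r.2
  have h4 := res1_aeval hw.2 h1 (p := p) fun k => hr (Subtype.ext (by simpa [k] using hp.symm))
  rw [show aeval z p = π * t from hp.trans e.symm, map_mul] at h4
  exact ((mul_le_of_le_one_right' h3).trans_lt h2).ne h4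

theorem res2_lt {a : WithZero (Multiplicative ℤ)} {d : ℤ} (h : a < exp d) : a ≤ exp (d - 1) := by
  rcases eq_or_ne a 0 with rfl | h0
  · exact zero_le
  · rw [← exp_log h0] at h ⊢
    rw [exp_lt_exp] at h
    exact exp_le_exp.2 (by omega)

/-- The elements of value at most `a`. -/
def res2_le (hw : IsPlace w) (a : WithZero (Multiplicative ℤ)) : Submodule ℂ F where
  carrier := {z | w z ≤ a}
  add_mem' := fun ha hb => (w.map_add _ _).trans (max_le ha hb)
  zero_mem' := by simp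
  smul_mem' := fun c s hs => by
    change w (c • s) ≤ a
    rw [Algebra.smul_def, map_mul]
    exact (mul_le_mul' (hw.2 c) hs).trans_eq (one_mul _)

/-- With `w π = exp (-d)`, the residue of `z * π` is a linear form on `U`; `U'` is its kernel.
(Or: if some `z₀ ∈ U` has `w z₀ = exp d`, then `U ≤ U' ⊔ span {z₀}`.) -/
theorem drop_one (hF : Crv F) (hw : IsPlace w) (U : Submodule ℂ F) [FiniteDimensional ℂ U] {d : ℤ}
    (hU : ∀ z ∈ U, w z ≤ exp d) :
    ∃ U' ≤ U, finrank ℂ U ≤ finrank ℂ U' + 1 ∧ ∀ z ∈ U', w z ≤ exp (d - 1) := by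
  by_cases h : ∀ z ∈ U, w z < exp d
  · exact ⟨U, le_rfl, Nat.le_succ _, fun z hz => res2_lt (h z hz)⟩
  push Not at h
  obtain ⟨y, hy, h1⟩ := h
  have h2 : w y = exp d := le_antisymm (hU y hy) h1
  have h0 : y ≠ 0 := fun e => exp_ne_zero (h2.symm.trans (by rw [e, map_zero]))
  refine ⟨U ⊓ res2_le hw (exp (d - 1)), inf_le_left, ?_, fun z hz => hz.2⟩
  have h3 : U ≤ U ⊓ res2_le hw (exp (d - 1)) ⊔ Submodule.span ℂ {y} := fun z hz => by
    obtain ⟨c, hc⟩ := exists_res hF hw (z := z / y) (by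
      rw [map_div₀, h2]
      exact div_le_one_of_le₀ (hU z hz) zero_le)
    have h4 : w (z - c • y) < exp d := by
      rw [show z - c • y = (z / y - algebraMap ℂ F c) * y by
        rw [Algebra.smul_def, sub_mul, div_mul_cancel₀ _ h0], map_mul, h2]
      exact mul_lt_of_lt_one_left exp_pos hc
    rw [← sub_add_cancel z (c • y)]
    exact Submodule.add_mem_sup ⟨U.sub_mem hz (U.smul_mem c hy), res2_lt h4⟩
      (Submodule.smul_mem _ c (Submodule.mem_span_singleton_self y))
  have h5 : FiniteDimensional ℂ (U ⊓ res2_le hw (exp (d - 1)) : Submodule ℂ F) :=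
    Submodule.finiteDimensional_inf_left _ _
  refine (Submodule.finrank_mono h3).trans ((Submodule.finrank_add_le_finrank_add_finrank _ _).trans ?_)
  rw [finrank_span_singleton h0]

theorem drop_nat (hF : Crv F) (hw : IsPlace w) (U : Submodule ℂ F) [FiniteDimensional ℂ U] {d : ℤ}
    (hU : ∀ z ∈ U, w z ≤ exp d) (k : ℕ) :
    ∃ U' ≤ U, finrank ℂ U ≤ finrank ℂ U' + k ∧ ∀ z ∈ U', w z ≤ exp (d - k) := by
  induction k with
  | zero => exact ⟨U, le_rfl, le_rfl, by simpa using hU⟩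
  | succ k ih =>
    obtain ⟨V, h1, h2, h3⟩ := ih
    have := Submodule.finiteDimensional_of_le h1
    obtain ⟨W, a1, a2, a3⟩ := drop_one hF hw V h3
    refine ⟨W, a1.trans h1, by omega, fun z hz => ?_⟩
    rw [Nat.cast_succ, ← sub_sub]
    exact a3 z hz

theorem drop (hF : Crv F) (Z : Finset (ZVal F)) (hZ : ∀ w ∈ Z, IsPlace w) (D : ZVal F → ℤ)
    (E : ZVal F → ℕ) (U : Submodule ℂ F) [FiniteDimensional ℂ U]
    (hU : ∀ w ∈ Z, ∀ z ∈ U, w z ≤ exp (D w)) :
    ∃ U' ≤ U, finrank ℂ U ≤ finrank ℂ U' + ∑ w ∈ Z, E w ∧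
      ∀ w ∈ Z, ∀ z ∈ U', w z ≤ exp (D w - E w) := by
  classical
  induction Z using Finset.induction_on with
  | empty => exact ⟨U, le_rfl, by simp, by simp⟩
  | insert v Z hv ih =>
    obtain ⟨V, h1, h2, h3⟩ := ih (fun w h => hZ w (Finset.mem_insert_of_mem h))
      fun w h => hU w (Finset.mem_insert_of_mem h)
    have := Submodule.finiteDimensional_of_le h1
    obtain ⟨W, a1, a2, a3⟩ := drop_nat hF (hZ v (Finset.mem_insert_self _ _)) V
      (fun z hz => hU v (Finset.mem_insert_self _ _) z (h1 hz)) (E v)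
    refine ⟨W, a1.trans h1, by rw [Finset.sum_insert hv]; omega, fun w h z hz => ?_⟩
    rcases Finset.mem_insert.1 h with rfl | h
    · exact a3 z hz
    · exact h3 w h z (a1 hz)

end Pool.Agent.Lib.MP_bc213e_ag.OW
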