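import Pool.Agent.Lib.MP_bc213e_ag.OW.D.Pole

/-! The inequality of Riemann. -/

namespace Pool.Agent.Lib.MP_bc213e_ag.OW

open Pool.Agent.Lib.MP_bc213e_ag.Hyp WithZero Polynomial Module
open scoped IntermediateField

variable {F : Type} [Field F] [Algebra ℂ F]

omit [Algebra ℂ F] in
theorem rie1_le (w : ZVal F) (z : F) : w z ≤ exp (((log (w z)).toNat : ℕ) : ℤ) :=
  le_exp_of_log_le (Int.self_le_toNat _)

theorem rie1_pow {R : Type} [CommRing R] [Algebra ℂ R] {g : R} (hg : Transcendental ℂ g) (m : ℕ) :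
    LinearIndependent ℂ fun i : Fin m => g ^ (i : ℕ) := by
  have h : LinearIndependent ℂ fun i : ℕ => g ^ i := by
    have h1 := (Polynomial.basisMonomials ℂ).linearIndependent.map' (aeval g).toLinearMap
      (LinearMap.ker_eq_bot.2 (transcendental_iff_injective.1 hg))
    refine (funext fun i => ?_ : _ = fun i : ℕ => g ^ i) ▸ h1
    simp [aeval_monomial]
  exact h.comp _ Fin.val_injective

/-- With `b` a basis of `F` over `ℂ⟮u⟯`, `U` is the span of the `u ^ i * b l`, `i < m`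
(`linearIndependent_smul`; the powers of `u` are independent over `ℂ`), and
`β w = ∑ l, (log (w (b l))).toNat`, of finite support by `fin_supp`. -/
theorem rie_base (hF : Crv F) {u : F} (hu : Transcendental ℂ u) :
    ∃ β : ZVal F → ℕ, {w : ZVal F | IsPlace w ∧ β w ≠ 0}.Finite ∧ ∀ m : ℕ,
      ∃ U : Submodule ℂ F, FiniteDimensional ℂ U ∧ finrank ℂ U = m * finrank ℂ⟮u⟯ F ∧
        ∀ w : ZVal F, IsPlace w → ∀ z ∈ U, w z ≤ exp ((β w : ℤ) + m * (log (w u)).toNat) := by
  have := hF u hu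
  let b := Module.finBasis ℂ⟮u⟯ F
  refine ⟨fun w => ∑ l, (log (w (b l))).toNat, ?_, fun m => ?_⟩
  · refine (Set.finite_iUnion fun l => fin_supp hF (b.ne_zero l)).subset ?_
    rintro w ⟨hw, h⟩
    obtain ⟨l, -, hl⟩ := Finset.exists_ne_zero_of_sum_ne_zero h
    exact Set.mem_iUnion.2 ⟨l, hw, fun h1 => hl (by simp [h1])⟩
  have hg : Transcendental ℂ (IntermediateField.AdjoinSimple.gen ℂ u) :=
    (transcendental_algebraMap_iff (algebraMap ℂ⟮u⟯ F).injective).1 hu
  have hl := linearIndependent_smul (rie1_pow hg m) b.linearIndependent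
  refine ⟨Submodule.span ℂ (Set.range _), FiniteDimensional.span_of_finite ℂ (Set.finite_range _),
    (finrank_span_eq_card hl).trans (by simp), fun w hw z hz => ?_⟩
  induction hz using Submodule.span_induction with
  | mem z hz =>
    obtain ⟨⟨i, l⟩, rfl⟩ := hz
    have h1 : ((log (w (b l))).toNat : ℤ) ≤ ((∑ l, (log (w (b l))).toNat : ℕ) : ℤ) :=
      Int.ofNat_le.2 (Finset.single_le_sum (f := fun l => (log (w (b l))).toNat)
        (fun _ _ => Nat.zero_le _) (Finset.mem_univ l))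
    have h2 : ((i : ℕ) : ℤ) * (log (w u)).toNat ≤ m * (log (w u)).toNat :=
      mul_le_mul_of_nonneg_right (Int.ofNat_le.2 i.2.le) (Int.natCast_nonneg _)
    have h3 : w u ^ (i : ℕ) ≤ exp (((i : ℕ) : ℤ) * (log (w u)).toNat) := by
      rw [← nsmul_eq_mul, exp_nsmul]
      exact pow_le_pow_left₀ zero_le (rie1_le w u) _
    simp only [Algebra.smul_def, map_mul, map_pow, IntermediateField.AdjoinSimple.algebraMap_gen]
    refine (mul_le_mul' h3 (rie1_le w _)).trans ?_
    rw [← exp_add, exp_le_exp]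
    omega
  | zero => simp
  | add x y _ _ hx hy => exact (w.map_add x y).trans (max_le hx hy)
  | smul c x _ hx =>
    rw [Algebra.smul_def, map_mul]
    exact (mul_le_mul' (hw.2 c) hx).trans (one_mul _).le

theorem rie2_ne {u : F} (hu : Transcendental ℂ u) (c : ℂ) : u - algebraMap ℂ F c ≠ 0 :=
  fun h => hu (by rw [sub_eq_zero.1 h]; exact isAlgebraic_algebraMap c)

theorem rie2_exp {ι : Type} (Z : Finset ι) (f : ι → ℤ) :
    exp (∑ v ∈ Z, f v) = ∏ v ∈ Z, exp (f v) := by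
  classical
  induction Z using Finset.induction_on with
  | empty => simp
  | insert a s ha ih => rw [Finset.sum_insert ha, Finset.prod_insert ha, exp_add, ih]

theorem rie2_one {u : F} (hu : Transcendental ℂ u) (c : ℂ) {w : ZVal F} (hw : IsPlace w) :
    w (u - algebraMap ℂ F c) =
      exp (((log (w u)).toNat : ℤ) - (-log (w (u - algebraMap ℂ F c))).toNat) := by
  have h0 : w (u - algebraMap ℂ F c) ≠ 0 := (map_ne_zero w).2 (rie2_ne hu c)
  have hu0 : w u ≠ 0 := (map_ne_zero w).2 (by simpa using rie2_ne hu 0)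
  refine (exp_log h0).symm.trans (congrArg exp ?_)
  rcases le_or_gt (w u) 1 with h | h
  · have h1 : log (w u) ≤ 0 := (log_le_iff_le_exp hu0).2 h
    have h2 : log (w (u - algebraMap ℂ F c)) ≤ 0 :=
      (log_le_iff_le_exp h0).2 (w.map_sub_le h (hw.2 c))
    omega
  · have h1 : 0 < log (w u) := (lt_log_iff_exp_lt hu0).2 h
    rw [w.map_sub_eq_of_lt_left ((hw.2 c).trans_lt h)]
    omega

/-- `s = ∏ v ∈ Z, (u - c v) ^ E v` where `c v` is the value of `u` at `v` if `v u ≤ 1`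
(`exists_res`), and `γ w = ∑ v ∈ Z, E v * (-log (w (u - c v))).toNat`. At a pole `w` of `u` one has
`w (u - c) = w u`; elsewhere `w (u - c) ≤ 1`. The degree bound is `zero_deg_sub`. -/
theorem rie_den (hF : Crv F) {u : F} (hu : Transcendental ℂ u) (Z : Finset (ZVal F))
    (hZ : ∀ w ∈ Z, IsPlace w) (E : ZVal F → ℕ) : ∃ (s : F) (γ : ZVal F → ℕ), s ≠ 0 ∧
      {w : ZVal F | IsPlace w ∧ γ w ≠ 0}.Finite ∧ (∀ w ∈ Z, w u ≤ 1 → E w ≤ γ w) ∧
      (∀ w : ZVal F, IsPlace w →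
        w s = exp ((∑ v ∈ Z, E v : ℕ) * ((log (w u)).toNat : ℤ) - γ w)) ∧
      ∀ Y : Finset (ZVal F), (∀ w ∈ Y, IsPlace w) →
        ∑ w ∈ Y, γ w ≤ (∑ v ∈ Z, E v) * finrank ℂ⟮u⟯ F := by
  classical
  have hc : ∀ v : ZVal F, ∃ c : ℂ, IsPlace v → v u ≤ 1 → v (u - algebraMap ℂ F c) < 1 := fun v => by
    by_cases h : IsPlace v ∧ v u ≤ 1
    · obtain ⟨c, hc⟩ := exists_res hF h.1 h.2
      exact ⟨c, fun _ _ => hc⟩
    · exact ⟨0, fun h1 h2 => (h ⟨h1, h2⟩).elim⟩
  choose c hc using hc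
  have := hF u hu
  refine ⟨∏ v ∈ Z, (u - algebraMap ℂ F (c v)) ^ E v,
    fun w => ∑ v ∈ Z, E v * (-log (w (u - algebraMap ℂ F (c v)))).toNat,
    Finset.prod_ne_zero_iff.2 fun v _ => pow_ne_zero _ (rie2_ne hu _), ?_, fun w hw h => ?_,
    fun w hw => ?_, fun Y hY => ?_⟩
  · refine (Z.finite_toSet.biUnion fun v _ => fin_supp hF (rie2_ne hu (c v))).subset ?_
    rintro w ⟨hw, h⟩
    obtain ⟨v, hv, h⟩ := Finset.exists_ne_zero_of_sum_ne_zero h
    refine Set.mem_biUnion hv ⟨hw, fun h1 => h ?_⟩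
    rw [h1]
    simp
  · refine le_trans ?_ (Finset.single_le_sum
      (f := fun v => E v * (-log (w (u - algebraMap ℂ F (c v)))).toNat)
      (fun _ _ => Nat.zero_le _) hw)
    have h1 : log (w (u - algebraMap ℂ F (c w))) < 0 :=
      (log_lt_iff_lt_exp ((map_ne_zero w).2 (rie2_ne hu _))).2 (hc w (hZ w hw) h)
    exact Nat.le_mul_of_pos_right _ (by omega)
  · rw [map_prod]
    push_cast
    rw [Finset.sum_mul, ← Finset.sum_sub_distrib, rie2_exp]
    refine Finset.prod_congr rfl fun v _ => ?_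
    rw [map_pow, ← mul_sub, ← nsmul_eq_mul, exp_nsmul, ← rie2_one hu (c v) hw]
  · rw [Finset.sum_comm, Finset.sum_mul]
    refine Finset.sum_le_sum fun v _ => ?_
    rw [← Finset.mul_sum]
    exact Nat.mul_le_mul_left _ (zero_deg_sub (c v) (rie2_ne hu _) Y hY)

/-- `E w = (D w).toNat`, `M = ∑ v ∈ Z, E v`, `n = finrank ℂ⟮u⟯ F`. Take `U` of `rie_base` for
`m = 2 M` and divide by `s` of `rie_den` (`Submodule.map (LinearMap.mulRight ℂ s⁻¹)`): the image
satisfies `w z ≤ exp (D' w)` with `D' = β + γ + M * (log (w u)).toNat ≥ D`. Let `Y` be the union of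
`Z` and the three supports (`fin_supp`); the sum of `D' - D` over `Y` is at most
`deg β + 2 M n - deg D` (`pole_deg`). Apply `drop` with `(D' - D).toNat`; `C = deg β + 1`. -/
theorem riemann (hF : Crv F) {u : F} (hu : Transcendental ℂ u) :
    ∃ C : ℕ, ∀ (D : ZVal F → ℤ) (Z : Finset (ZVal F)), (∀ w ∈ Z, IsPlace w) →
      (∀ w, IsPlace w → D w ≠ 0 → w ∈ Z) → (C : ℤ) ≤ ∑ w ∈ Z, D w →
      ∃ s : F, s ≠ 0 ∧ ∀ w : ZVal F, IsPlace w → w s ≤ exp (D w) := by
  classical
  obtain ⟨β, hβ, hU⟩ := rie_base hF hu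
  have hu0 : u ≠ 0 := fun h => hu (h ▸ isAlgebraic_zero)
  have : FiniteDimensional ℂ⟮u⟯ F := hF u hu
  refine ⟨∑ w ∈ hβ.toFinset, β w + 1, fun D Z hZ hD hC => ?_⟩
  obtain ⟨s, γ, hs0, hγ, hEγ, hs, hγdeg⟩ := rie_den hF hu Z hZ (fun w => (D w).toNat)
  generalize hM : ∑ v ∈ Z, (D v).toNat = M at hs hγdeg
  have hMle : ∀ w ∈ Z, (D w).toNat ≤ M := fun w hw =>
    hM ▸ Finset.single_le_sum (f := fun v => (D v).toNat) (fun _ _ => Nat.zero_le _) hw
  obtain ⟨U, hUfd, hUr, hUv⟩ := hU (2 * M)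
  have hP := fin_supp hF hu0
  set p : ZVal F → ℕ := fun w => (log (w u)).toNat with hp
  set D' : ZVal F → ℤ := fun w => (β w : ℤ) + γ w + M * p w with hD'
  set Y : Finset (ZVal F) := Z ∪ hβ.toFinset ∪ hγ.toFinset ∪ hP.toFinset with hY
  have hYp : ∀ w ∈ Y, IsPlace w := by
    intro w hw
    simp only [hY, Finset.mem_union, Set.Finite.mem_toFinset, Set.mem_ofPred_eq] at hw
    rcases hw with ((h | h) | h) | h
    exacts [hZ w h, h.1, h.1, h.1]
  have hinj : Function.Injective (LinearMap.mulRight ℂ s⁻¹) := fun a b h =>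
    mul_right_cancel₀ (inv_ne_zero hs0) h
  set U1 : Submodule ℂ F := U.map (LinearMap.mulRight ℂ s⁻¹) with hU1
  have hU1r : finrank ℂ U1 = 2 * M * finrank ℂ⟮u⟯ F := by
    rw [← hUr]
    exact (Submodule.equivMapOfInjective _ hinj U).finrank_eq.symm
  have hU1v : ∀ w : ZVal F, IsPlace w → ∀ z ∈ U1, w z ≤ exp (D' w) := by
    rintro w hw z ⟨y, hy, rfl⟩
    have h1 := hUv w hw y hy
    rw [LinearMap.mulRight_apply, map_mul, map_inv₀, hs w hw, ← exp_neg]
    calc w y * exp (-((M : ℤ) * ((log (w u)).toNat : ℤ) - γ w))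
        ≤ exp ((β w : ℤ) + ((2 * M : ℕ) : ℤ) * ((log (w u)).toNat : ℤ)) *
          exp (-((M : ℤ) * ((log (w u)).toNat : ℤ) - γ w)) := mul_le_mul_left h1 _
      _ = exp (D' w) := by
        rw [← exp_add]
        congr 1
        simp only [hD', hp]
        push_cast
        ring
  have hDD' : ∀ w : ZVal F, IsPlace w → D w ≤ D' w := by
    intro w hw
    have h0 : (0 : ℤ) ≤ M * p w := by positivity
    have h1 : (0 : ℤ) ≤ β w := by positivity
    have h2 : (0 : ℤ) ≤ γ w := by positivity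
    by_cases hwZ : w ∈ Z
    · have h3 : D w ≤ ((D w).toNat : ℤ) := Int.self_le_toNat _
      by_cases hwu : w u ≤ 1
      · have h4 : ((D w).toNat : ℤ) ≤ γ w := by exact_mod_cast hEγ w hwZ hwu
        simp only [hD']
        linarith
      · have hne : w u ≠ 0 := (Valuation.ne_zero_iff w).2 hu0
        have h4 : 0 < log (w u) := by
          rw [lt_log_iff_exp_lt hne, exp_zero]
          exact not_le.1 hwu
        have h5 : (1 : ℤ) ≤ p w := by
          simp only [hp]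
          omega
        have h6 : ((D w).toNat : ℤ) ≤ M := by exact_mod_cast hMle w hwZ
        have h7 : (M : ℤ) * 1 ≤ M * p w := mul_le_mul_of_nonneg_left h5 (by positivity)
        simp only [hD']
        linarith
    · have h3 : D w = 0 := by
        by_contra h
        exact hwZ (hD w hw h)
      simp only [hD']
      linarith
  obtain ⟨U', hU'le, hU'r, hU'v⟩ := drop hF Y hYp D' (fun w => (D' w - D w).toNat) U1
    (fun w hw => hU1v w (hYp w hw))
  have hsum : ((∑ w ∈ Y, (D' w - D w).toNat : ℕ) : ℤ) + 1 ≤ (2 * M * finrank ℂ⟮u⟯ F : ℕ) := by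
    have e1 : ((∑ w ∈ Y, (D' w - D w).toNat : ℕ) : ℤ) =
        ((∑ w ∈ Y, β w : ℕ) : ℤ) + ((∑ w ∈ Y, γ w : ℕ) : ℤ) + M * ((∑ w ∈ Y, p w : ℕ) : ℤ) -
          ∑ w ∈ Y, D w := by
      push_cast
      rw [Finset.mul_sum, ← Finset.sum_add_distrib, ← Finset.sum_add_distrib,
        ← Finset.sum_sub_distrib]
      refine Finset.sum_congr rfl fun w hw => ?_
      rw [Int.toNat_of_nonneg (sub_nonneg.2 (hDD' w (hYp w hw)))]
    have e2 : ∑ w ∈ hβ.toFinset, β w = ∑ w ∈ Y, β w := by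
      refine Finset.sum_subset (fun w hw => by simp only [hY, Finset.mem_union]; tauto)
        fun w hw hn => ?_
      by_contra h
      exact hn (hβ.mem_toFinset.2 ⟨hYp w hw, h⟩)
    have e3 : ∑ w ∈ Z, D w = ∑ w ∈ Y, D w := by
      refine Finset.sum_subset (fun w hw => by simp only [hY, Finset.mem_union]; tauto)
        fun w hw hn => ?_
      by_contra h
      exact hn (hD w (hYp w hw) h)
    have e4 : ((∑ w ∈ Y, γ w : ℕ) : ℤ) ≤ M * (finrank ℂ⟮u⟯ F : ℕ) := by
      exact_mod_cast hγdeg Y hYp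
    have e5 : ((∑ w ∈ Y, p w : ℕ) : ℤ) ≤ (finrank ℂ⟮u⟯ F : ℕ) := by
      exact_mod_cast pole_deg hu0 Y hYp
    have e6 : (M : ℤ) * ((∑ w ∈ Y, p w : ℕ) : ℤ) ≤ M * (finrank ℂ⟮u⟯ F : ℕ) :=
      mul_le_mul_of_nonneg_left e5 (by positivity)
    rw [e2, e3] at hC
    rw [e1]
    push_cast at hC e4 e6 ⊢
    linarith
  have hpos : 0 < finrank ℂ U' := by omega
  have hne : U' ≠ ⊥ := by
    rintro rfl
    simp at hpos
  obtain ⟨z, hz, hz0⟩ := Submodule.exists_mem_ne_zero_of_ne_bot hne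
  refine ⟨z, hz0, fun w hw => ?_⟩
  by_cases hwY : w ∈ Y
  · have h1 := hU'v w hwY z hz
    rw [Int.toNat_of_nonneg (sub_nonneg.2 (hDD' w hw)), sub_sub_cancel] at h1
    exact h1
  · simp only [hY, Finset.mem_union, Set.Finite.mem_toFinset, Set.mem_ofPred_eq, not_or, not_and,
      not_not] at hwY
    obtain ⟨⟨⟨h1, h2⟩, h3⟩, h4⟩ := hwY
    have h5 : D w = 0 := by
      by_contra h
      exact h1 (hD w hw h)
    have h6 : D' w = 0 := by
      simp only [hD', hp, h2 hw, h3 hw, h4 hw, log_one]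
      simp
    have h7 := hU1v w hw z (hU'le hz)
    rw [h6] at h7
    rw [h5]
    exact h7

end Pool.Agent.Lib.MP_bc213e_ag.OW
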